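import Mathlib

/-!
Approximate uniform covering of a segment by asynchronous oblivious sensors with neighbour
visibility is impossible.
-/

set_option autoImplicit false

namespace Pool.Agent.Results.MP_362848_lc.AsyncImpossible

open scoped Classical

/-- `j` is visible from `i`: no sensor lies strictly between them. So a sensor sees the nearest
location of sensors in each direction, and (more than what is asked) the sensors at its own
location. -/
def Visible {n : ℕ} (y : Fin n → ℝ) (i j : Fin n) : Prop :=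
  ∀ k, ¬ (y i < y k ∧ y k < y j) ∧ ¬ (y j < y k ∧ y k < y i)

/-- The snapshot taken by sensor `i` at the positions `y`, in its local coordinate system, which is
centred at `i` and has scale and orientation `c i`: the number of visible sensors at every local
coordinate. -/
noncomputable def snapshot {n : ℕ} (c : Fin n → ℝ) (y : Fin n → ℝ) (i : Fin n) : ℝ → ℕ := fun z =>
  (Finset.univ.filter fun j => Visible y i j ∧ c i * (y j - y i) = z).card

/-- The displacement, in global coordinates, which the protocol `f` prescribes to sensor `i` if it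
looks at the positions `y`. -/
noncomputable def move {n : ℕ} (f : (ℝ → ℕ) → ℝ) (c : Fin n → ℝ) (y : Fin n → ℝ) (i : Fin n) : ℝ :=
  f (snapshot c y i) / c i

/-- `x t i` is the position of sensor `i` at time `t` in an admissible asynchronous execution of
the protocol `f`, with local coordinate systems `c`, where a move may be stopped early only after
the distance `δ`. -/
structure IsExec {n : ℕ} (f : (ℝ → ℕ) → ℝ) (c : Fin n → ℝ) (δ : ℝ) (x : ℝ → Fin n → ℝ) : Prop where
  /-- the end sensors never move -/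
  ends : ∀ i : Fin n, (i.1 = 0 ∨ i.1 + 1 = n) → ∀ t, 0 ≤ t → x t i = x 0 i
  /-- every other sensor has infinitely many cycles; in cycle `k` it looks at time `look k` and
  moves from time `start k` to time `stop k`, continuously and monotonically, towards its
  destination, and reaches it or is stopped after at least the distance `δ` -/
  cycles : ∀ i : Fin n, 0 < i.1 → i.1 + 1 < n → ∃ look start stop : ℕ → ℝ,
    0 ≤ look 0 ∧ (∀ k, look k < start k ∧ start k < stop k ∧ stop k < look (k + 1)) ∧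
    (∀ T : ℝ, ∃ k, T < look k) ∧
    (∀ t, 0 ≤ t → t ≤ start 0 → x t i = x 0 i) ∧
    (∀ k t, stop k ≤ t → t ≤ start (k + 1) → x t i = x (stop k) i) ∧
    ∀ k, ∃ g : ℝ → ℝ, ContinuousOn g (Set.Icc (start k) (stop k)) ∧
      MonotoneOn g (Set.Icc (start k) (stop k)) ∧ g (start k) = 0 ∧ g (stop k) ≤ 1 ∧
      (∀ t ∈ Set.Icc (start k) (stop k),
        x t i = x (start k) i + g t * move f c (x (look k)) i) ∧
      (g (stop k) = 1 ∨ δ ≤ g (stop k) * |move f c (x (look k)) i|)

/-- The positions `y` of `n` sensors are an `ε`-approximate covering. -/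
def Covering {n : ℕ} (ε : ℝ) (y : Fin n → ℝ) : Prop :=
  ∀ i j : Fin n, i.1 + 1 = j.1 →
    1 / ((n : ℝ) - 1) - ε ≤ |y j - y i| ∧ |y j - y i| ≤ 1 / ((n : ℝ) - 1) + ε

/-- The protocol `f` solves approximate covering of the segment. -/
def Solves (f : (ℝ → ℕ) → ℝ) : Prop :=
  ∀ (n : ℕ), 2 ≤ n → ∀ (c : Fin n → ℝ) (δ : ℝ) (x : ℝ → Fin n → ℝ), (∀ i, c i ≠ 0) → 0 < δ →
    IsExec f c δ x → StrictMono (x 0) → (∀ i : Fin n, i.1 = 0 → x 0 i = 0) →
    (∀ i : Fin n, i.1 + 1 = n → x 0 i = 1) →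
    ∀ ε : ℝ, 0 < ε → ∃ t, 0 ≤ t ∧ Covering ε (x t)

/-! ### Discrete schedules -/

/-- the fraction of round `⌊t⌋` completed -/
noncomputable def cl (t : ℝ) : ℝ := max 0 (min 1 ((t - ⌊t⌋₊ - 1 / 2) * 4))

/-- interpolation -/
noncomputable def interp {n : ℕ} (X : ℕ → Fin n → ℝ) (t : ℝ) (i : Fin n) : ℝ :=
  X ⌊t⌋₊ i + cl t * (X (⌊t⌋₊ + 1) i - X ⌊t⌋₊ i)

theorem cl_nonneg (t : ℝ) : 0 ≤ cl t := le_max_left _ _

theorem cl_le (t : ℝ) : cl t ≤ 1 := max_le (by norm_num) (min_le_left _ _)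

theorem floor_add {N : ℕ} {s : ℝ} (h0 : 0 ≤ s) (h1 : s < 1) : ⌊(N : ℝ) + s⌋₊ = N := by
  rw [Nat.floor_eq_iff (by positivity)]
  constructor <;> linarith

theorem interp_add {n : ℕ} (X : ℕ → Fin n → ℝ) {N : ℕ} {s : ℝ} (h0 : 0 ≤ s) (h1 : s < 1)
    (i : Fin n) : interp X ((N : ℝ) + s) i =
      X N i + max 0 (min 1 ((s - 1 / 2) * 4)) * (X (N + 1) i - X N i) := by
  unfold interp cl
  rw [floor_add h0 h1]
  congr 4
  ring_nf

theorem interp_low {n : ℕ} (X : ℕ → Fin n → ℝ) {N : ℕ} {s : ℝ} (h0 : 0 ≤ s) (h1 : s ≤ 1 / 2)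
    (i : Fin n) : interp X ((N : ℝ) + s) i = X N i := by
  rw [interp_add X h0 (by linarith), min_eq_right (by linarith), max_eq_left (by linarith)]
  ring

theorem interp_high {n : ℕ} (X : ℕ → Fin n → ℝ) {N : ℕ} {s : ℝ} (h0 : 3 / 4 ≤ s) (h1 : s < 1)
    (i : Fin n) : interp X ((N : ℝ) + s) i = X (N + 1) i := by
  rw [interp_add X (by linarith) h1, min_eq_left (by linarith), max_eq_right (by linarith)]
  ring

theorem interp_mid {n : ℕ} (X : ℕ → Fin n → ℝ) {N : ℕ} {s : ℝ} (h0 : 1 / 2 ≤ s) (h1 : s ≤ 3 / 4)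
    (i : Fin n) : interp X ((N : ℝ) + s) i =
      X N i + ((s - 1 / 2) * 4) * (X (N + 1) i - X N i) := by
  rw [interp_add X (by linarith) (by linarith), min_eq_right (by linarith),
    max_eq_right (by linarith)]

theorem decomp {t : ℝ} (ht : 0 ≤ t) : ∃ s : ℝ, 0 ≤ s ∧ s < 1 ∧ t = (⌊t⌋₊ : ℝ) + s :=
  ⟨t - ⌊t⌋₊, by linarith [Nat.floor_le ht], by linarith [Nat.lt_floor_add_one t], by ring⟩

/-- Discrete asynchronous data: sensor `i` moves in the rounds `N` with `act i N`, having looked in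
round `lk i N`. -/
structure IsSched {n : ℕ} (f : (ℝ → ℕ) → ℝ) (c : Fin n → ℝ) (δ : ℝ) (X : ℕ → Fin n → ℝ)
    (act : Fin n → ℕ → Prop) (lk : Fin n → ℕ → ℕ) : Prop where
  ends : ∀ i : Fin n, (i.1 = 0 ∨ i.1 + 1 = n) → ∀ N, X N i = X 0 i
  inf : ∀ i : Fin n, 0 < i.1 → i.1 + 1 < n → {N | act i N}.Infinite
  lk_le : ∀ i N, act i N → lk i N ≤ N
  lk_gt : ∀ i N N', act i N → act i N' → N' < N → N' < lk i N
  idle : ∀ i : Fin n, 0 < i.1 → i.1 + 1 < n → ∀ N, ¬ act i N → X (N + 1) i = X N i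
  step : ∀ i : Fin n, 0 < i.1 → i.1 + 1 < n → ∀ N, act i N → ∃ s : ℝ, 0 ≤ s ∧ s ≤ 1 ∧
    X (N + 1) i = X N i + s * move f c (X (lk i N)) i ∧
    (s = 1 ∨ δ ≤ s * |move f c (X (lk i N)) i|)

theorem const_of_idle {n : ℕ} {X : ℕ → Fin n → ℝ} {i : Fin n} {a b : ℕ}
    (h : ∀ N, a ≤ N → N < b → X (N + 1) i = X N i) : ∀ N, a ≤ N → N ≤ b → X N i = X a i := by
  intro N
  induction N with
  | zero => intro h1 _; rw [Nat.le_zero.1 h1]
  | succ N ih =>
    intro h1 h2
    rcases Nat.eq_or_lt_of_le h1 with h3 | h3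
    · rw [h3]
    · rw [h N (by omega) (by omega)]
      exact ih (by omega) (by omega)

/-- if no move takes place in the rounds strictly between, the interpolation is constant -/
theorem interp_const {n : ℕ} {X : ℕ → Fin n → ℝ} {i : Fin n} {a b : ℕ}
    (h : ∀ N, a ≤ N → N < b → X (N + 1) i = X N i) {t : ℝ} (h1 : (a : ℝ) ≤ t)
    (h2 : t ≤ (b : ℝ) + 1 / 2) : interp X t i = X a i := by
  have ht : 0 ≤ t := (Nat.cast_nonneg a).trans h1
  obtain ⟨s, hs0, hs1, hs⟩ := decomp ht
  have h3 : a ≤ ⌊t⌋₊ := Nat.le_floor h1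
  have h4 : ⌊t⌋₊ ≤ b := by
    have : (⌊t⌋₊ : ℝ) < b + 1 := by linarith
    have : ⌊t⌋₊ < b + 1 := by exact_mod_cast this
    omega
  rcases Nat.eq_or_lt_of_le h4 with h5 | h5
  · rw [hs, interp_low X hs0 (by rw [h5] at hs; linarith)]
    exact const_of_idle h _ h3 h4
  · rw [hs, interp_add X hs0 hs1, h _ h3 h5, const_of_idle h _ h3 h4]
    ring

theorem IsSched.isExec {n : ℕ} {f : (ℝ → ℕ) → ℝ} {c : Fin n → ℝ} {δ : ℝ} {X : ℕ → Fin n → ℝ}
    {act : Fin n → ℕ → Prop} {lk : Fin n → ℕ → ℕ} (h : IsSched f c δ X act lk) :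
    IsExec f c δ (interp X) := by
  have hz : ∀ i, interp X 0 i = X 0 i := fun i => by
    have := interp_low X (N := 0) (s := 0) le_rfl (by norm_num) i
    simpa using this
  refine ⟨?_, ?_⟩
  · intro i hi t ht
    obtain ⟨s, hs0, hs1, hs⟩ := decomp ht
    rw [hz, hs, interp_add X hs0 hs1, h.ends i hi (⌊t⌋₊ + 1), h.ends i hi ⌊t⌋₊]
    ring
  · intro i hi1 hi2
    have hinf := h.inf i hi1 hi2
    obtain ⟨e, he⟩ : ∃ e : ℕ → ℕ, e = Nat.nth (act i) := ⟨_, rfl⟩
    have hmem : ∀ k, act i (e k) := fun k => by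
      rw [he]; exact Nat.nth_mem_of_infinite hinf k
    have hmono : StrictMono e := by rw [he]; exact Nat.nth_strictMono hinf
    have hbetween : ∀ k N, e k < N → N < e (k + 1) → ¬ act i N := by
      intro k N h1 h2 h3
      have h4 : e (Nat.count (act i) N) = N := by rw [he]; exact Nat.nth_count h3
      rw [← h4] at h1 h2
      have h5 := hmono.lt_iff_lt.1 h1
      have h6 := hmono.lt_iff_lt.1 h2
      omega
    have hbefore : ∀ N, N < e 0 → ¬ act i N := by
      intro N h2 h3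
      have h4 : e (Nat.count (act i) N) = N := by rw [he]; exact Nat.nth_count h3
      rw [← h4] at h2
      have h6 := hmono.lt_iff_lt.1 h2
      omega
    have hk : ∀ k, k ≤ e k := hmono.id_le
    refine ⟨fun k => (lk i (e k) : ℝ) + 1 / 4, fun k => (e k : ℝ) + 1 / 2,
      fun k => (e k : ℝ) + 3 / 4, by positivity, ?_, ?_, ?_, ?_, ?_⟩
    · intro k
      have h1 : (lk i (e k) : ℝ) ≤ e k := by exact_mod_cast h.lk_le i _ (hmem k)
      have h2 : e k + 1 ≤ lk i (e (k + 1)) :=
        h.lk_gt i _ _ (hmem _) (hmem _) (hmono (Nat.lt_succ_self k))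
      have h3 : (e k : ℝ) + 1 ≤ lk i (e (k + 1)) := by exact_mod_cast h2
      exact ⟨by linarith, by linarith, by linarith⟩
    · intro T
      obtain ⟨m, hm⟩ := exists_nat_gt T
      refine ⟨m + 1, ?_⟩
      have h2 : e m + 1 ≤ lk i (e (m + 1)) :=
        h.lk_gt i _ _ (hmem _) (hmem _) (hmono (Nat.lt_succ_self m))
      have h3 : (m : ℝ) ≤ lk i (e (m + 1)) := by
        have := hk m
        exact_mod_cast (by omega : m ≤ lk i (e (m + 1)))
      linarith
    · intro t ht1 ht2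
      rw [hz]
      exact interp_const (a := 0) (b := e 0) (fun N _ h2 => h.idle i hi1 hi2 N (hbefore N h2))
        (by simpa using ht1) ht2
    · intro k t ht1 ht2
      rw [interp_high X (le_refl _) (by norm_num)]
      rcases lt_or_ge t ((e k : ℝ) + 1) with h1 | h1
      · have h2 : t = (e k : ℝ) + (t - e k) := by ring
        rw [h2, interp_high X (by linarith) (by linarith)]
      · exact interp_const (a := e k + 1) (b := e (k + 1))
          (fun N h3 h4 => h.idle i hi1 hi2 N (hbetween k N (by omega) h4))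
          (by push_cast; exact h1) ht2
    · intro k
      obtain ⟨s, hs0, hs1, hs2, hs3⟩ := h.step i hi1 hi2 (e k) (hmem k)
      have hl : ∀ j, interp X ((lk i (e k) : ℝ) + 1 / 4) j = X (lk i (e k)) j := fun j =>
        interp_low X (by norm_num) (by norm_num) j
      have hl' : interp X ((lk i (e k) : ℝ) + 1 / 4) = X (lk i (e k)) := funext hl
      refine ⟨fun t => (t - e k - 1 / 2) * 4 * s, ?_, ?_, ?_, ?_, ?_, ?_⟩
      · fun_prop
      · intro a _ b _ hab
        have : (a - e k - 1 / 2) * 4 ≤ (b - e k - 1 / 2) * 4 := by linarith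
        exact mul_le_mul_of_nonneg_right this hs0
      · ring
      · have : ((e k : ℝ) + 3 / 4 - e k - 1 / 2) * 4 * s = s := by ring
        simp only [this]; exact hs1
      · intro t ht
        rw [hl', interp_low X (by norm_num) (le_refl _)]
        have h2 : t = (e k : ℝ) + (t - e k) := by ring
        have h3 := ht.1
        have h4 := ht.2
        rw [h2, interp_mid X (by linarith) (by linarith), hs2]
        ring
      · rw [hl']
        have : ((e k : ℝ) + 3 / 4 - e k - 1 / 2) * 4 * s = s := by ring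
        simp only [this]
        exact hs3

/-! ### Snapshots of distinct positions -/

/-- the snapshot of a sensor with one neighbour at local coordinate `u` and one at `v` -/
noncomputable def view (u v : ℝ) : ℝ → ℕ := fun z =>
  (if z = 0 then 1 else 0) + (if z = u then 1 else 0) + (if z = v then 1 else 0)

theorem visible_iff {n : ℕ} {y : Fin n → ℝ} (hy : StrictMono y) {i j : Fin n} :
    Visible y i j ↔ j.1 = i.1 ∨ j.1 + 1 = i.1 ∨ j.1 = i.1 + 1 := by
  constructor
  · intro h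
    by_contra hne
    push Not at hne
    rcases lt_trichotomy i.1 j.1 with h1 | h1 | h1
    · have hk : i.1 + 1 < n := by omega
      have h2 := (h ⟨i.1 + 1, hk⟩).1
      exact h2 ⟨hy (Fin.lt_def.2 (by simp)), hy (Fin.lt_def.2 (by simp; omega))⟩
    · omega
    · have hk : j.1 + 1 < n := by omega
      have h2 := (h ⟨j.1 + 1, hk⟩).2
      exact h2 ⟨hy (Fin.lt_def.2 (by simp)), hy (Fin.lt_def.2 (by simp; omega))⟩
  · intro h k
    constructor
    · rintro ⟨h1, h2⟩
      have h3 := Fin.lt_def.1 (hy.lt_iff_lt.1 h1)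
      have h4 := Fin.lt_def.1 (hy.lt_iff_lt.1 h2)
      omega
    · rintro ⟨h1, h2⟩
      have h3 := Fin.lt_def.1 (hy.lt_iff_lt.1 h1)
      have h4 := Fin.lt_def.1 (hy.lt_iff_lt.1 h2)
      omega

theorem snapshot_eq {n : ℕ} {c : Fin n → ℝ} {y : Fin n → ℝ} (hy : StrictMono y) {a i b : Fin n}
    (hai : a.1 + 1 = i.1) (hib : i.1 + 1 = b.1) :
    snapshot c y i = view (c i * (y a - y i)) (c i * (y b - y i)) := by
  funext z
  unfold snapshot view
  have h1 : (Finset.univ.filter fun j => Visible y i j ∧ c i * (y j - y i) = z) =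
      ({i, a, b} : Finset (Fin n)).filter fun j => c i * (y j - y i) = z := by
    ext j
    simp only [Finset.mem_filter, Finset.mem_univ, true_and, Finset.mem_insert,
      Finset.mem_singleton, visible_iff hy, Fin.ext_iff]
    have : (j.1 = i.1 ∨ j.1 + 1 = i.1 ∨ j.1 = i.1 + 1) ↔ (j.1 = i.1 ∨ j.1 = a.1 ∨ j.1 = b.1) := by
      omega
    rw [this]
  have hia : i ∉ ({a, b} : Finset (Fin n)) := by
    simp only [Finset.mem_insert, Finset.mem_singleton, Fin.ext_iff]; omega
  have hab : a ∉ ({b} : Finset (Fin n)) := by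
    simp only [Finset.mem_singleton, Fin.ext_iff]; omega
  rw [h1, Finset.card_filter, Finset.sum_insert hia, Finset.sum_insert hab, Finset.sum_singleton]
  have h2 : c i * (y i - y i) = 0 := by ring
  rw [h2]
  simp only [eq_comm (a := z)]
  ring

/-! ### Scaling -/

theorem snapshot_scale {n : ℕ} (c : Fin n → ℝ) (y : Fin n → ℝ) {L : ℝ} (hL : 0 < L) (i : Fin n) :
    snapshot (fun i => c i * L) (fun i => y i / L) i = snapshot c y i := by
  funext z
  unfold snapshot
  congr 1
  ext j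
  simp only [Finset.mem_filter, Finset.mem_univ, true_and]
  have h1 : Visible (fun i => y i / L) i j ↔ Visible y i j := by
    unfold Visible
    simp only [div_lt_div_iff_of_pos_right hL]
  have h2 : c i * L * (y j / L - y i / L) = c i * (y j - y i) := by
    field_simp
  rw [h1, h2]

theorem move_scale {n : ℕ} (f : (ℝ → ℕ) → ℝ) (c : Fin n → ℝ) (y : Fin n → ℝ) {L : ℝ}
    (hL : 0 < L) (i : Fin n) :
    move f (fun i => c i * L) (fun i => y i / L) i = move f c y i / L := by
  unfold move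
  rw [snapshot_scale c y hL, div_div]

theorem IsSched.scale {n : ℕ} {f : (ℝ → ℕ) → ℝ} {c : Fin n → ℝ} {δ : ℝ} {X : ℕ → Fin n → ℝ}
    {act : Fin n → ℕ → Prop} {lk : Fin n → ℕ → ℕ} (h : IsSched f c δ X act lk) {L : ℝ}
    (hL : 0 < L) : IsSched f (fun i => c i * L) (δ / L) (fun N i => X N i / L) act lk := by
  refine ⟨fun i hi N => ?_, h.inf, h.lk_le, h.lk_gt, fun i h1 h2 N h3 => ?_,
    fun i h1 h2 N h3 => ?_⟩
  · rw [h.ends i hi N]
  · rw [h.idle i h1 h2 N h3]
  · obtain ⟨s, hs0, hs1, hs2, hs3⟩ := h.step i h1 h2 N h3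
    refine ⟨s, hs0, hs1, ?_, ?_⟩
    · rw [hs2, move_scale f c _ hL]
      ring
    · rcases hs3 with hs3 | hs3
      · exact Or.inl hs3
      · right
        rw [move_scale f c _ hL, abs_div, abs_of_pos hL, ← mul_div_assoc]
        exact div_le_div_of_nonneg_right hs3 hL.le

theorem interp_scale {n : ℕ} (X : ℕ → Fin n → ℝ) (L : ℝ) (t : ℝ) (i : Fin n) :
    interp (fun N i => X N i / L) t i = interp X t i / L := by
  unfold interp
  ring

/-- what solvability gives for discrete schedules of a segment of length `L` -/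
theorem use_solves {f : (ℝ → ℕ) → ℝ} (hf : Solves f) {n : ℕ} (hn : 2 ≤ n) {c : Fin n → ℝ}
    (hc : ∀ i, c i ≠ 0) {δ : ℝ} (hδ : 0 < δ) {X : ℕ → Fin n → ℝ} {act : Fin n → ℕ → Prop}
    {lk : Fin n → ℕ → ℕ} (h : IsSched f c δ X act lk) {L : ℝ} (hL : 0 < L)
    (hmono : StrictMono (X 0)) (h0 : ∀ i : Fin n, i.1 = 0 → X 0 i = 0)
    (h1 : ∀ i : Fin n, i.1 + 1 = n → X 0 i = L) {ε : ℝ} (hε : 0 < ε) :
    ∃ t, 0 ≤ t ∧ ∀ i j : Fin n, i.1 + 1 = j.1 →
      L / ((n : ℝ) - 1) - ε * L ≤ |interp X t j - interp X t i| ∧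
      |interp X t j - interp X t i| ≤ L / ((n : ℝ) - 1) + ε * L := by
  have hz : ∀ i, interp (fun N i => X N i / L) 0 i = X 0 i / L := fun i => by
    have := interp_low (fun N i => X N i / L) (N := 0) (s := 0) le_rfl (by norm_num) i
    simpa using this
  obtain ⟨t, ht, hcov⟩ := hf n hn (fun i => c i * L) (δ / L) _
    (fun i => mul_ne_zero (hc i) hL.ne') (div_pos hδ hL) (h.scale hL).isExec
    (fun i j hij => by rw [hz, hz]; exact div_lt_div_of_pos_right (hmono hij) hL)
    (fun i hi => by rw [hz, h0 i hi, zero_div]) (fun i hi => by rw [hz, h1 i hi, div_self hL.ne'])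
    ε hε
  refine ⟨t, ht, fun i j hij => ?_⟩
  have h2 := hcov i j hij
  rw [interp_scale, interp_scale, ← sub_div, abs_div, abs_of_pos hL, le_div_iff₀ hL,
    div_le_iff₀ hL] at h2
  have h3 : (1 / ((n : ℝ) - 1) - ε) * L = L / ((n : ℝ) - 1) - ε * L := by ring
  have h4 : (1 / ((n : ℝ) - 1) + ε) * L = L / ((n : ℝ) - 1) + ε * L := by ring
  rw [h3, h4] at h2
  exact h2

/-! ### Collisions -/

/-- one round in which all sensors but the ends look and move -/
noncomputable def full {n : ℕ} (f : (ℝ → ℕ) → ℝ) (c : Fin n → ℝ) (y : Fin n → ℝ) : Fin n → ℝ :=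
  fun i => if 0 < i.1 ∧ i.1 + 1 < n then y i + move f c y i else y i

theorem move_eq_of_eq {n : ℕ} (f : (ℝ → ℕ) → ℝ) (c : Fin n → ℝ) (y : Fin n → ℝ) {p q : Fin n}
    (hc : c p = c q) (hy : y p = y q) : move f c y p = move f c y q := by
  have : snapshot c y p = snapshot c y q := by
    funext z
    unfold snapshot Visible
    rw [hc, hy]
  unfold move
  rw [this, hc]

/-- A finite beginning of a schedule which ends with a collision of two inner sensors with the same
local coordinate systems, and during which one gap is too large, refutes the protocol. -/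
theorem kill {f : (ℝ → ℕ) → ℝ} (hf : Solves f) {n : ℕ} {c : Fin n → ℝ} {c0 : ℝ}
    (hc : ∀ i, c i = c0) (hc0 : c0 ≠ 0) {L : ℝ} (hL : 0 < L) {δ : ℝ} (hδ : 0 < δ) (K : ℕ)
    (X : ℕ → Fin n → ℝ) (act : Fin n → ℕ → Prop) (lk : Fin n → ℕ → ℕ)
    (hmono : StrictMono (X 0)) (hfirst : ∀ i : Fin n, i.1 = 0 → X 0 i = 0)
    (hlast : ∀ i : Fin n, i.1 + 1 = n → X 0 i = L)
    (hends : ∀ i : Fin n, (i.1 = 0 ∨ i.1 + 1 = n) → ∀ N, N ≤ K → X N i = X 0 i)
    (hlk_le : ∀ i N, N < K → act i N → lk i N ≤ N)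
    (hlk_gt : ∀ i N N', N < K → act i N → act i N' → N' < N → N' < lk i N)
    (hidle : ∀ i : Fin n, 0 < i.1 → i.1 + 1 < n → ∀ N, N < K → ¬ act i N → X (N + 1) i = X N i)
    (hstep : ∀ i : Fin n, 0 < i.1 → i.1 + 1 < n → ∀ N, N < K → act i N → ∃ s : ℝ, 0 ≤ s ∧ s ≤ 1 ∧
      X (N + 1) i = X N i + s * move f c (X (lk i N)) i ∧
      (s = 1 ∨ δ ≤ s * |move f c (X (lk i N)) i|))
    {p q : Fin n} (hp : 0 < p.1) (hpq : p.1 + 1 = q.1) (hq : q.1 + 1 < n) (hcol : X K p = X K q)
    {a b : Fin n} (hab : a.1 + 1 = b.1) {G : ℝ} (hG : L / ((n : ℝ) - 1) < G)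
    (hgap : ∀ N, N ≤ K → G ≤ X N b - X N a) : False := by
  obtain ⟨Z, hZ⟩ : ∃ Z : ℕ → Fin n → ℝ, Z = fun N => if N ≤ K then X N else
      (full f c)^[N - K] (X K) := ⟨_, rfl⟩
  have hZ1 : ∀ N, N ≤ K → Z N = X N := fun N h => by rw [hZ]; simp only [if_pos h]
  have hZ2 : ∀ N, K ≤ N → Z (N + 1) = full f c (Z N) := by
    intro N h
    have h1 : Z (N + 1) = (full f c)^[N + 1 - K] (X K) := by
      rw [hZ]; simp only [if_neg (show ¬ N + 1 ≤ K by omega)]
    have h2 : Z N = (full f c)^[N - K] (X K) := by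
      rcases Nat.eq_or_lt_of_le h with h3 | h3
      · rw [hZ1 N (by omega), ← h3]; simp
      · rw [hZ]; simp only [if_neg (show ¬ N ≤ K by omega)]
    rw [h1, h2, show N + 1 - K = (N - K) + 1 by omega, Function.iterate_succ_apply']
  have hn : 2 ≤ n := by have := q.2; omega
  have hn3 : (0 : ℝ) < (n : ℝ) - 1 := by
    have : (2 : ℝ) ≤ n := by exact_mod_cast hn
    linarith
  have hends' : ∀ i : Fin n, (i.1 = 0 ∨ i.1 + 1 = n) → ∀ N, Z N i = Z 0 i := by
    intro i hi N
    induction N with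
    | zero => rfl
    | succ N ih =>
      by_cases h : N + 1 ≤ K
      · rw [hZ1 _ h, hZ1 0 (Nat.zero_le _)]
        exact hends i hi _ h
      · rw [hZ2 N (by omega), ← ih]
        unfold full
        rw [if_neg (by omega)]
  have hS : IsSched f c δ Z (fun i N => K ≤ N ∨ act i N) (fun i N => if K ≤ N then N else lk i N) := by
    refine ⟨hends', ?_, ?_, ?_, ?_, ?_⟩
    · intro i _ _
      exact (Set.Ici_infinite K).mono fun N hN => Or.inl hN
    · intro i N h
      by_cases h1 : K ≤ N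
      · simp only [if_pos h1, le_refl]
      · simp only [if_neg h1]
        exact hlk_le i N (by omega) (h.resolve_left h1)
    · intro i N N' h h' hlt
      by_cases h1 : K ≤ N
      · simp only [if_pos h1]
        exact hlt
      · simp only [if_neg h1]
        exact hlk_gt i N N' (by omega) (h.resolve_left h1) (h'.resolve_left (by omega)) hlt
    · intro i h1 h2 N h3
      push Not at h3
      rw [hZ1 (N + 1) (by omega), hZ1 N (by omega)]
      exact hidle i h1 h2 N h3.1 h3.2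
    · intro i h1 h2 N h3
      by_cases h4 : K ≤ N
      · refine ⟨1, by norm_num, le_rfl, ?_, Or.inl rfl⟩
        rw [hZ2 N h4]
        simp only [if_pos h4]
        unfold full
        rw [if_pos ⟨h1, h2⟩, one_mul]
      · obtain ⟨s, hs0, hs1, hs2, hs3⟩ := hstep i h1 h2 N (by omega) (h3.resolve_left h4)
        have h5 := hlk_le i N (by omega) (h3.resolve_left h4)
        simp only [if_neg h4]
        rw [hZ1 (N + 1) (by omega), hZ1 N (by omega), hZ1 _ (by omega : lk i N ≤ K)]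
        exact ⟨s, hs0, hs1, hs2, hs3⟩
  have hcol' : ∀ N, K ≤ N → Z N p = Z N q := by
    intro N hN
    induction N, hN using Nat.le_induction with
    | base => rw [hZ1 K le_rfl]; exact hcol
    | succ N hN ih =>
      rw [hZ2 N hN]
      unfold full
      rw [if_pos ⟨hp, by omega⟩, if_pos ⟨by omega, hq⟩, ih,
        move_eq_of_eq f c _ (by rw [hc, hc]) ih]
  obtain ⟨ε, hε, hε1, hε2⟩ : ∃ ε : ℝ, 0 < ε ∧ ε * L < L / ((n : ℝ) - 1) ∧
      L / ((n : ℝ) - 1) + ε * L < G := by
    have h1 : 0 < L / ((n : ℝ) - 1) := div_pos hL hn3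
    refine ⟨min (L / ((n : ℝ) - 1)) (G - L / ((n : ℝ) - 1)) / (2 * L), ?_, ?_, ?_⟩
    · exact div_pos (lt_min h1 (by linarith)) (by positivity)
    · have h2 : min (L / ((n : ℝ) - 1)) (G - L / ((n : ℝ) - 1)) / (2 * L) * L =
          min (L / ((n : ℝ) - 1)) (G - L / ((n : ℝ) - 1)) / 2 := by field_simp
      rw [h2]
      have := min_le_left (L / ((n : ℝ) - 1)) (G - L / ((n : ℝ) - 1))
      linarith
    · have h2 : min (L / ((n : ℝ) - 1)) (G - L / ((n : ℝ) - 1)) / (2 * L) * L =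
          min (L / ((n : ℝ) - 1)) (G - L / ((n : ℝ) - 1)) / 2 := by field_simp
      rw [h2]
      have := min_le_right (L / ((n : ℝ) - 1)) (G - L / ((n : ℝ) - 1))
      linarith
  have hc' : ∀ i, c i ≠ 0 := fun i => by rw [hc]; exact hc0
  obtain ⟨t, ht, hcov⟩ := use_solves hf hn hc' hδ hS hL (by rw [hZ1 0 (Nat.zero_le _)]; exact hmono)
    (fun i hi => by rw [hZ1 0 (Nat.zero_le _)]; exact hfirst i hi)
    (fun i hi => by rw [hZ1 0 (Nat.zero_le _)]; exact hlast i hi) hε
  by_cases h : K ≤ ⌊t⌋₊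
  · have h1 := (hcov p q hpq).1
    have h2 : interp Z t q - interp Z t p = 0 := by
      unfold interp
      rw [hcol' _ h, hcol' _ (by omega : K ≤ ⌊t⌋₊ + 1)]
      ring
    rw [h2, abs_zero] at h1
    linarith
  · have h1 := (hcov a b hab).2
    have h3 := hgap ⌊t⌋₊ (by omega)
    have h4 := hgap (⌊t⌋₊ + 1) (by omega)
    have h2 : interp Z t b - interp Z t a =
        (1 - cl t) * (X ⌊t⌋₊ b - X ⌊t⌋₊ a) + cl t * (X (⌊t⌋₊ + 1) b - X (⌊t⌋₊ + 1) a) := by
      unfold interp
      rw [hZ1 ⌊t⌋₊ (by omega), hZ1 (⌊t⌋₊ + 1) (by omega)]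
      ring
    have h5 : G ≤ interp Z t b - interp Z t a := by
      rw [h2]
      have h6 := mul_le_mul_of_nonneg_left h3 (sub_nonneg.2 (cl_le t))
      have h7 := mul_le_mul_of_nonneg_left h4 (cl_nonneg t)
      linarith
    have h6 := (h5.trans (le_abs_self _)).trans h1
    linarith

theorem strictMono_of {n : ℕ} {y : Fin n → ℝ} (h : ∀ a b : Fin n, a.1 + 1 = b.1 → y a < y b) :
    StrictMono y := by
  have h1 : ∀ k : ℕ, ∀ a b : Fin n, a.1 + k + 1 = b.1 → y a < y b := by
    intro k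
    induction k with
    | zero => intro a b hab; exact h a b (by omega)
    | succ k ih =>
      intro a b hab
      have hb : b.1 - 1 < n := by omega
      exact (ih a ⟨b.1 - 1, hb⟩ (by simp; omega)).trans (h ⟨b.1 - 1, hb⟩ b (by simp; omega))
  intro a b hab
  exact h1 (b.1 - a.1 - 1) a b (by have := Fin.lt_def.1 hab; omega)

/-- A sensor never wants to reach or to pass its neighbour. -/
theorem no_jump {f : (ℝ → ℕ) → ℝ} (hf : Solves f) {c0 : ℝ} (hc0 : c0 ≠ 0) {A B : ℝ} (hA : 0 < A)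
    (hB : 0 < B) : -A < f (view (c0 * -A) (c0 * B)) / c0 := by
  by_contra hcon
  push Not at hcon
  obtain ⟨v, hv⟩ : ∃ v : ℝ, v = f (view (c0 * -A) (c0 * B)) / c0 := ⟨_, rfl⟩
  rw [← hv] at hcon
  have hv0 : v < 0 := by linarith
  obtain ⟨y, hy⟩ : ∃ y : ℕ → ℝ, y = fun j => if j = 0 then 0 else if j = 1 then A + B else
    if j = 2 then 2 * A + B else 2 * A + 2 * B := ⟨_, rfl⟩
  have y0 : y 0 = 0 := by rw [hy]; simp
  have y1 : y 1 = A + B := by rw [hy]; simp
  have y2 : y 2 = 2 * A + B := by rw [hy]; simp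
  have y3 : y 3 = 2 * A + 2 * B := by rw [hy]; simp
  have hsm : StrictMono (fun i : Fin 4 => y i.1) := by
    refine strictMono_of fun a b hab => ?_
    have ha : a.1 = 0 ∨ a.1 = 1 ∨ a.1 = 2 := by omega
    rcases ha with h | h | h <;> simp only [← hab, h, y0, y1, y2, y3] <;> linarith
  have hmv : move f (fun _ : Fin 4 => c0) (fun i : Fin 4 => y i.1) 2 = v := by
    unfold move
    rw [snapshot_eq hsm (a := 1) (i := 2) (b := 3) (by simp) (by simp), hv]
    simp only [show ((1 : Fin 4) : ℕ) = 1 from rfl, show ((2 : Fin 4) : ℕ) = 2 from rfl,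
      show ((3 : Fin 4) : ℕ) = 3 from rfl, y1, y2, y3]
    congr 4 <;> ring
  refine kill hf (n := 4) (c := fun _ => c0) (c0 := c0) (fun _ => rfl) hc0 (L := 2 * A + 2 * B)
    (by linarith) (δ := A) hA 1
    (fun N i => if N = 1 ∧ i.1 = 2 then A + B else y i.1) (fun i N => i.1 = 2 ∧ N = 0)
    (fun _ _ => 0) ?_ ?_ ?_ ?_ ?_ ?_ ?_ ?_ (p := 1) (q := 2) (by simp) (by simp) (by simp) ?_
    (a := 0) (b := 1) (by simp) (G := A + B) ?_ ?_
  · simpa using hsm
  · intro i hi; simp [hi, y0]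
  · intro i hi
    have : i.1 = 3 := by omega
    simp [this, y3]
  · intro i hi N _
    have : i.1 ≠ 2 := by omega
    simp [this]
  · intro i N _ _; exact Nat.zero_le _
  · rintro i N N' h ⟨h1, h2⟩ h3 h4; omega
  · intro i _ _ N h1 h2
    have h3 : N = 0 := by omega
    have h4 : i.1 ≠ 2 := fun h => h2 ⟨h, h3⟩
    simp [h4]
  · rintro i _ _ N h1 ⟨h2, h3⟩
    have hi : i = 2 := Fin.ext h2
    subst hi
    subst h3
    have hX0 : (fun i : Fin 4 => if 0 = 1 ∧ i.1 = 2 then A + B else y i.1) =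
        fun i : Fin 4 => y i.1 := by
      funext i
      simp
    refine ⟨A / -v, div_nonneg hA.le (by linarith), ?_, ?_, Or.inr ?_⟩
    · rw [div_le_one (by linarith)]
      linarith
    · rw [hX0, hmv]
      have h5 : A / -v * v = -A := by
        rw [div_mul_eq_mul_div, div_eq_iff (by linarith : -v ≠ 0)]
        ring
      rw [h5]
      simp only [show ((2 : Fin 4) : ℕ) = 2 from rfl, y2]
      norm_num
      ring
    · rw [hX0, hmv, abs_of_neg hv0, div_mul_cancel₀ _ (by linarith : -v ≠ 0)]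
  · simp [y1]
  · norm_num
    linarith
  · intro N hN
    have h1 : ¬ (N = 1 ∧ ((0 : Fin 4) : ℕ) = 2) := by simp
    have h2 : ¬ (N = 1 ∧ ((1 : Fin 4) : ℕ) = 2) := by simp
    simp only [if_neg h1, if_neg h2]
    simp only [show ((1 : Fin 4) : ℕ) = 1 from rfl, show ((0 : Fin 4) : ℕ) = 0 from rfl, y0, y1]
    linarith

/-- one inner sensor per round looks and moves -/
noncomputable def seqRun (f : (ℝ → ℕ) → ℝ) {m : ℕ} (c y : Fin (m + 2) → ℝ) : ℕ → Fin (m + 2) → ℝ
  | 0 => y
  | N + 1 => fun j => if j.1 = 1 + N % m then seqRun f c y N j + move f c (seqRun f c y N) j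
      else seqRun f c y N j

theorem seqRun_sched (f : (ℝ → ℕ) → ℝ) {m : ℕ} (hm : 0 < m) (c y : Fin (m + 2) → ℝ) :
    IsSched f c 1 (seqRun f c y) (fun j N => j.1 = 1 + N % m) (fun _ N => N) := by
  refine ⟨?_, ?_, fun _ _ _ => le_rfl, fun _ _ _ _ _ h => h, ?_, ?_⟩
  · intro i hi N
    induction N with
    | zero => rfl
    | succ N ih =>
      rw [← ih]
      have : N % m < m := Nat.mod_lt _ hm
      simp only [seqRun, if_neg (show ¬ i.1 = 1 + N % m by omega)]
  · intro i hi1 hi2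
    refine Set.infinite_of_not_bddAbove ?_
    rintro ⟨b, hb⟩
    have h1 : i.1 - 1 < m := by omega
    have h2 : (i.1 - 1 + m * (b + 1)) ∈ {N | i.1 = 1 + N % m} := by
      simp only [Set.mem_ofPred_eq, Nat.add_mul_mod_self_left, Nat.mod_eq_of_lt h1]
      omega
    have h3 := hb h2
    have h4 : b + 1 ≤ m * (b + 1) := Nat.le_mul_of_pos_left _ hm
    omega
  · intro i _ _ N h
    simp only [seqRun, if_neg h]
  · intro i _ _ N h
    exact ⟨1, by norm_num, le_rfl, by simp only [seqRun, if_pos h, one_mul], Or.inl rfl⟩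

/-- the order is preserved if no sensor wants to reach its neighbour -/
theorem seqRun_mono {f : (ℝ → ℕ) → ℝ} {c0 : ℝ}
    (h1 : ∀ A B : ℝ, 0 < A → 0 < B → -A < f (view (c0 * -A) (c0 * B)) / c0)
    (h2 : ∀ A B : ℝ, 0 < A → 0 < B → f (view (c0 * -A) (c0 * B)) / c0 < B) {m : ℕ} (hm : 0 < m)
    {y : Fin (m + 2) → ℝ} (hy : StrictMono y) (N : ℕ) :
    StrictMono (seqRun f (fun _ => c0) y N) := by
  induction N with
  | zero => exact hy
  | succ N ih =>
    have hmod : N % m < m := Nat.mod_lt _ hm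
    have key : ∀ i a b : Fin (m + 2), i.1 = 1 + N % m → a.1 + 1 = i.1 → i.1 + 1 = b.1 →
        seqRun f (fun _ => c0) y N a < seqRun f (fun _ => c0) y (N + 1) i ∧
        seqRun f (fun _ => c0) y (N + 1) i < seqRun f (fun _ => c0) y N b := by
      intro i a b hi hai hib
      have hA : 0 < seqRun f (fun _ => c0) y N i - seqRun f (fun _ => c0) y N a :=
        sub_pos.2 (ih (Fin.lt_def.2 (by omega)))
      have hB : 0 < seqRun f (fun _ => c0) y N b - seqRun f (fun _ => c0) y N i :=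
        sub_pos.2 (ih (Fin.lt_def.2 (by omega)))
      have h3 := h1 _ _ hA hB
      have h4 := h2 _ _ hA hB
      have h5 : seqRun f (fun _ => c0) y (N + 1) i = seqRun f (fun _ => c0) y N i +
          f (view (c0 * -(seqRun f (fun _ => c0) y N i - seqRun f (fun _ => c0) y N a))
            (c0 * (seqRun f (fun _ => c0) y N b - seqRun f (fun _ => c0) y N i))) / c0 := by
        simp only [seqRun, if_pos hi]
        unfold move
        rw [snapshot_eq ih hai hib, neg_sub]
      rw [h5]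
      constructor <;> linarith
    have same : ∀ j : Fin (m + 2), j.1 ≠ 1 + N % m →
        seqRun f (fun _ => c0) y (N + 1) j = seqRun f (fun _ => c0) y N j := by
      intro j hj
      simp only [seqRun, if_neg hj]
    refine strictMono_of fun a b hab => ?_
    by_cases ha : a.1 = 1 + N % m
    · rw [same b (by omega)]
      have h0 : a.1 - 1 < m + 2 := by omega
      exact (key a ⟨a.1 - 1, h0⟩ b ha (by simp; omega) hab).2
    · rw [same a ha]
      by_cases hb : b.1 = 1 + N % m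
      · have h0 : b.1 + 1 < m + 2 := by omega
        exact (key b a ⟨b.1 + 1, h0⟩ hb hab (by simp)).1
      · rw [same b hb]
        exact ih (Fin.lt_def.2 (by omega))

theorem main_case {f : (ℝ → ℕ) → ℝ} (hf : Solves f) {c0 : ℝ} (hc0 : c0 ≠ 0)
    (h1 : ∀ A B : ℝ, 0 < A → 0 < B → -A < f (view (c0 * -A) (c0 * B)) / c0)
    (h2 : ∀ A B : ℝ, 0 < A → 0 < B → f (view (c0 * -A) (c0 * B)) / c0 < B) {A B : ℝ} (hA : 0 < A)
    (hB : 0 < B) (hneg : f (view (c0 * -A) (c0 * B)) / c0 < 0) : False := by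
  obtain ⟨ψ, hψ⟩ : ∃ ψ : ℝ, ψ = -(f (view (c0 * -A) (c0 * B)) / c0) := ⟨_, rfl⟩
  have hψ0 : 0 < ψ := by linarith
  have hψA : ψ < A := by linarith [h1 A B hA hB]
  obtain ⟨m, hm1, hm2, hm3⟩ : ∃ m : ℕ, 0 < m ∧ 2 * A < B * (m + 1) ∧ 8 * A ≤ ψ * (m + 1) := by
    obtain ⟨m1, hm1⟩ := exists_nat_gt (2 * A / B)
    obtain ⟨m2, hm2⟩ := exists_nat_gt (8 * A / ψ)
    rw [div_lt_iff₀ hB] at hm1
    rw [div_lt_iff₀ hψ0] at hm2
    refine ⟨m1 + m2 + 1, by omega, ?_, ?_⟩
    · push_cast
      have : 0 ≤ B * ((m2 : ℝ) + 1 + 1) := by positivity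
      linarith
    · push_cast
      have : 0 ≤ ψ * ((m1 : ℝ) + 1 + 1) := by positivity
      linarith
  have hm0 : (0 : ℝ) < m := by exact_mod_cast hm1
  obtain ⟨y, hy⟩ : ∃ y : Fin (m + 2) → ℝ, y = fun j => if j.1 = m + 1 then 2 * A else
    A * j.1 / m := ⟨_, rfl⟩
  have hysm : StrictMono y := by
    refine strictMono_of fun a b hab => ?_
    rw [hy]
    have ha : a.1 ≠ m + 1 := by omega
    by_cases hb : b.1 = m + 1
    · have h3 : a.1 = m := by omega
      simp only [if_pos hb, h3, if_neg (show ¬ m = m + 1 by omega)]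
      rw [mul_div_assoc, div_self hm0.ne']
      linarith
    · simp only [if_neg ha, if_neg hb]
      apply div_lt_div_of_pos_right _ hm0
      have h3 : (b.1 : ℝ) = a.1 + 1 := by exact_mod_cast hab.symm
      rw [h3]
      linarith
  have hy0 : ∀ i : Fin (m + 2), i.1 = 0 → y i = 0 := by
    intro i hi
    rw [hy]
    simp [hi]
  have hy1 : ∀ i : Fin (m + 2), i.1 = m + 1 → y i = 2 * A := by
    intro i hi
    rw [hy]
    simp [hi]
  have hym : ∀ i : Fin (m + 2), i.1 = m → y i = A := by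
    intro i hi
    rw [hy]
    simp only [hi, if_neg (show ¬ m = m + 1 by omega)]
    rw [mul_div_assoc, div_self hm0.ne', mul_one]
  obtain ⟨Y, hY⟩ : ∃ Y : ℕ → Fin (m + 2) → ℝ, Y = seqRun f (fun _ => c0) y := ⟨_, rfl⟩
  have hYs := seqRun_sched f hm1 (fun _ => c0) y
  have hYm := seqRun_mono h1 h2 hm1 hysm
  rw [← hY] at hYs hYm
  have hY0 : Y 0 = y := by rw [hY]; rfl
  have hYstep : ∀ (N : ℕ) (j : Fin (m + 2)), j.1 = 1 + N % m →
      Y (N + 1) j = Y N j + move f (fun _ => c0) (Y N) j := by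
    intro N j hj
    rw [hY]
    simp only [seqRun, if_pos hj]
  have hYidle : ∀ (N : ℕ) (j : Fin (m + 2)), j.1 ≠ 1 + N % m → Y (N + 1) j = Y N j := by
    intro N j hj
    rw [hY]
    simp only [seqRun, if_neg hj]
  have hYlast : ∀ N (i : Fin (m + 2)), i.1 = m + 1 → Y N i = 2 * A := by
    intro N i hi
    rw [hYs.ends i (Or.inr (by omega)) N, hY0, hy1 i hi]
  have hYfirst : ∀ N (i : Fin (m + 2)), i.1 = 0 → Y N i = 0 := by
    intro N i hi
    rw [hYs.ends i (Or.inl hi) N, hY0, hy0 i hi]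
  -- the left part becomes dense near its right end
  obtain ⟨M, hM⟩ : ∃ M : Fin (m + 2), M.1 = m := ⟨⟨m, by omega⟩, rfl⟩
  have hex : ∃ N, 2 * A - ψ ≤ Y N M := by
    by_contra hcon
    push Not at hcon
    obtain ⟨t, ht, hcov⟩ := use_solves hf (n := m + 2) (by omega) (fun _ => hc0) one_pos hYs
      (L := 2 * A) (by linarith) (by rw [hY0]; exact hysm) (fun i hi => by rw [hY0]; exact hy0 i hi)
      (fun i hi => by rw [hY0]; exact hy1 i (by omega)) (ε := ψ / (8 * A)) (by positivity)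
    have h3 := (hcov M ⟨m + 1, by omega⟩ (by simp [hM])).2
    have h4 : interp Y t ⟨m + 1, by omega⟩ = 2 * A := by
      unfold interp
      rw [hYlast _ _ rfl, hYlast _ _ rfl]
      ring
    have h5 : interp Y t M < 2 * A - ψ := by
      unfold interp
      have e1 := hcon ⌊t⌋₊
      have e2 := hcon (⌊t⌋₊ + 1)
      have e3 := cl_nonneg t
      have e4 := cl_le t
      have e5 : Y ⌊t⌋₊ M + cl t * (Y (⌊t⌋₊ + 1) M - Y ⌊t⌋₊ M) =
          (1 - cl t) * Y ⌊t⌋₊ M + cl t * Y (⌊t⌋₊ + 1) M := by ring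
      rw [e5]
      rcases eq_or_lt_of_le e3 with e6 | e6
      · rw [← e6]; linarith
      · have e7 := mul_lt_mul_of_pos_left e2 e6
        have e8 := mul_le_mul_of_nonneg_left e1.le (sub_nonneg.2 e4)
        linarith
    rw [h4] at h3
    have h6 := (le_abs_self _).trans h3
    have h7 : ψ / (8 * A) * (2 * A) = ψ / 4 := by
      field_simp
      ring
    have h8 : 2 * A / (((m + 2 : ℕ) : ℝ) - 1) ≤ ψ / 4 := by
      have e1 : ((m + 2 : ℕ) : ℝ) - 1 = m + 1 := by push_cast; ring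
      rw [e1, div_le_iff₀ (by linarith)]
      linarith
    rw [h7] at h6
    linarith
  obtain ⟨Ns, hNs1, hNs2⟩ : ∃ Ns : ℕ, (∀ N, N ≤ Ns → Y N M < 2 * A - ψ) ∧
      2 * A - ψ ≤ Y (Ns + 1) M := by
    have h3 := Nat.find_spec hex
    have h4 : Nat.find hex ≠ 0 := by
      intro h5
      rw [h5, hY0, hym M hM] at h3
      linarith
    refine ⟨Nat.find hex - 1, fun N hN => ?_, ?_⟩
    · exact not_le.1 (Nat.find_min hex (by omega))
    · rw [Nat.sub_add_cancel (by omega)]
      exact h3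
  have hNsact : m = 1 + Ns % m := by
    by_contra hne
    have h3 := hYidle Ns M (by rw [hM]; exact hne)
    rw [h3] at hNs2
    linarith [hNs1 Ns le_rfl]
  -- the schedule of the whole system
  obtain ⟨q, hq⟩ : ∃ q : ℝ, q = 2 * A - ψ := ⟨_, rfl⟩
  rw [← hq] at hNs2
  simp only [← hq] at hNs1
  obtain ⟨X, hX⟩ : ∃ X : ℕ → Fin (m + 3) → ℝ, X = fun (N : ℕ) (i : Fin (m + 3)) =>
      if h : i.1 < m + 1 then
        (if N ≤ Ns then Y N ⟨i.1, by omega⟩ else if i.1 = m then q else Y Ns ⟨i.1, by omega⟩)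
      else if i.1 = m + 1 then (if N ≤ Ns + 1 then 2 * A else q) else 2 * A + B := ⟨_, rfl⟩
  have X1 : ∀ N, N ≤ Ns → ∀ (i : Fin (m + 3)) (h : i.1 < m + 2), X N i = Y N ⟨i.1, h⟩ := by
    intro N hN i h
    rw [hX]
    by_cases h3 : i.1 < m + 1
    · simp only [dif_pos h3, if_pos hN]
    · simp only [dif_neg h3, if_pos (show i.1 = m + 1 by omega), if_pos (show N ≤ Ns + 1 by omega)]
      exact (hYlast N _ (by simp; omega)).symm
  have X2 : ∀ N, Ns < N → ∀ (i : Fin (m + 3)) (h : i.1 < m), X N i = Y Ns ⟨i.1, by omega⟩ := by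
    intro N hN i h
    rw [hX]
    simp only [dif_pos (show i.1 < m + 1 by omega), if_neg (show ¬ N ≤ Ns by omega),
      if_neg (show ¬ i.1 = m by omega)]
  have X3 : ∀ N, Ns < N → ∀ (i : Fin (m + 3)), i.1 = m → X N i = q := by
    intro N hN i h
    rw [hX]
    simp only [dif_pos (show i.1 < m + 1 by omega), if_neg (show ¬ N ≤ Ns by omega), if_pos h]
  have X4 : ∀ N, N ≤ Ns + 1 → ∀ (i : Fin (m + 3)), i.1 = m + 1 → X N i = 2 * A := by
    intro N hN i h
    rw [hX]
    simp only [dif_neg (show ¬ i.1 < m + 1 by omega), if_pos h, if_pos hN]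
  have X5 : ∀ N, Ns + 1 < N → ∀ (i : Fin (m + 3)), i.1 = m + 1 → X N i = q := by
    intro N hN i h
    rw [hX]
    simp only [dif_neg (show ¬ i.1 < m + 1 by omega), if_pos h,
      if_neg (show ¬ N ≤ Ns + 1 by omega)]
  have X6 : ∀ N, ∀ (i : Fin (m + 3)), i.1 = m + 2 → X N i = 2 * A + B := by
    intro N i h
    rw [hX]
    simp only [dif_neg (show ¬ i.1 < m + 1 by omega), if_neg (show ¬ i.1 = m + 1 by omega)]
  have Xsm : ∀ N, N ≤ Ns → StrictMono (X N) := by
    intro N hN
    refine strictMono_of fun a b hab => ?_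
    by_cases hb : b.1 < m + 2
    · rw [X1 N hN a (by omega), X1 N hN b hb]
      exact hYm N (Fin.lt_def.2 (by simp; omega))
    · rw [X4 N (by omega) a (by omega), X6 N b (by omega)]
      linarith
  have Xmove : ∀ N, N ≤ Ns → ∀ (i : Fin (m + 3)) (h : i.1 < m + 2), 0 < i.1 → i.1 < m + 1 →
      move f (fun _ => c0) (X N) i = move f (fun _ => c0) (Y N) ⟨i.1, h⟩ := by
    intro N hN i h h3 h4
    unfold move
    have e0 : i.1 - 1 < m + 3 := by omega
    have e1 : i.1 + 1 < m + 3 := by omega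
    have e2 : i.1 - 1 < m + 2 := by omega
    have e3 : i.1 + 1 < m + 2 := by omega
    rw [snapshot_eq (Xsm N hN) (a := ⟨i.1 - 1, e0⟩) (i := i) (b := ⟨i.1 + 1, e1⟩)
        (by simp; omega) (by simp),
      snapshot_eq (hYm N) (a := ⟨i.1 - 1, e2⟩) (i := ⟨i.1, h⟩) (b := ⟨i.1 + 1, e3⟩)
        (by simp; omega) (by simp),
      X1 N hN i h, X1 N hN ⟨i.1 - 1, e0⟩ e2, X1 N hN ⟨i.1 + 1, e1⟩ e3]
  have hMM : (⟨m, by omega⟩ : Fin (m + 2)) = M := Fin.ext hM.symm
  have hY0' : ∀ (i : Fin (m + 2)), Y 0 i = y i := fun i => by rw [hY0]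
  refine kill hf (n := m + 3) (c := fun _ => c0) (c0 := c0) (fun _ => rfl) hc0 (L := 2 * A + B)
    (by linarith) (δ := q - Y Ns M) (by linarith [hNs1 Ns le_rfl]) (Ns + 2) X
    (fun i N => (0 < i.1 ∧ i.1 < m + 1 ∧ N ≤ Ns ∧ i.1 = 1 + N % m) ∨ (i.1 = m + 1 ∧ N = Ns + 1))
    (fun i N => if i.1 = m + 1 then 0 else N) (Xsm 0 (Nat.zero_le _)) ?_ ?_ ?_ ?_ ?_ ?_ ?_
    (p := ⟨m, by omega⟩) (q := ⟨m + 1, by omega⟩) (by simpa using hm1) (by simp) (by simp) ?_
    (a := ⟨m + 1, by omega⟩) (b := ⟨m + 2, by omega⟩) (by simp) (G := B) ?_ ?_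
  · intro i hi
    rw [X1 0 (Nat.zero_le _) i (by omega)]
    exact hYfirst 0 _ (by simpa using hi)
  · intro i hi
    exact X6 0 i (by omega)
  · intro i hi N hN
    rcases hi with hi | hi
    · rw [X1 0 (Nat.zero_le _) i (by omega), hYfirst 0 _ (by simpa using hi)]
      by_cases h3 : N ≤ Ns
      · rw [X1 N h3 i (by omega), hYfirst N _ (by simpa using hi)]
      · rw [X2 N (by omega) i (by omega), hYfirst Ns _ (by simpa using hi)]
    · rw [X6 N i (by omega), X6 0 i (by omega)]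
  · intro i N _ _
    split_ifs
    · exact Nat.zero_le _
    · exact le_rfl
  · intro i N N' _ h3 h4 h5
    by_cases h6 : i.1 = m + 1
    · omega
    · simp only [if_neg h6]
      exact h5
  · intro i hi1 hi2 N hN h3
    push Not at h3
    by_cases h4 : i.1 = m + 1
    · have h5 := h3.2 h4
      rcases Nat.lt_or_ge N (Ns + 1) with h6 | h6
      · rw [X4 N (by omega) i h4, X4 (N + 1) (by omega) i h4]
      · omega
    · have h5 : i.1 < m + 1 := by omega
      rcases Nat.lt_or_ge N Ns with h6 | h6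
      · rw [X1 N (by omega) i (by omega), X1 (N + 1) (by omega) i (by omega)]
        exact hYidle N _ (h3.1 hi1 h5 (by omega))
      · rcases Nat.eq_or_lt_of_le h6 with h7 | h7
        · have h8 := h3.1 hi1 h5 (by omega)
          have h9 : i.1 < m := by rw [← h7] at h8; omega
          rw [X2 (N + 1) (by omega) i h9, ← h7, X1 Ns le_rfl i (by omega)]
        · have h8 : N = Ns + 1 := by omega
          by_cases h9 : i.1 = m
          · rw [X3 N (by omega) i h9, X3 (N + 1) (by omega) i h9]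
          · rw [X2 N (by omega) i (by omega), X2 (N + 1) (by omega) i (by omega)]
  · intro i hi1 hi2 N hN h3
    rcases h3 with ⟨-, h3, h4, h5⟩ | ⟨h3, h4⟩
    · simp only [if_neg (show ¬ i.1 = m + 1 by omega)]
      rw [Xmove N h4 i (by omega) hi1 h3, X1 N h4 i (by omega)]
      have h6 := hYstep N ⟨i.1, by omega⟩ h5
      rcases Nat.eq_or_lt_of_le h4 with h7 | h7
      · subst h7
        have h8 : i.1 = m := by omega
        have h9 : (⟨i.1, by omega⟩ : Fin (m + 2)) = M := Fin.ext (by simp [h8, hM])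
        rw [X3 (N + 1) (by omega) i h8]
        rw [h9] at h6 ⊢
        have e1 := hNs1 N le_rfl
        have e2 : 0 < move f (fun _ => c0) (Y N) M := by linarith
        refine ⟨(q - Y N M) / move f (fun _ => c0) (Y N) M, ?_, ?_, ?_, Or.inr ?_⟩
        · exact div_nonneg (by linarith) e2.le
        · rw [div_le_one e2]
          linarith
        · rw [div_mul_cancel₀ _ e2.ne']
          ring
        · rw [abs_of_pos e2, div_mul_cancel₀ _ e2.ne']
      · refine ⟨1, by norm_num, le_rfl, ?_, Or.inl rfl⟩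
        rw [X1 (N + 1) (by omega) i (by omega), h6, one_mul]
    · simp only [if_pos h3]
      refine ⟨1, by norm_num, le_rfl, ?_, Or.inl rfl⟩
      rw [h4, X5 (Ns + 1 + 1) (by omega) i h3, X4 (Ns + 1) le_rfl i h3, one_mul]
      unfold move
      have e0 : m < m + 3 := by omega
      have e1 : m + 2 < m + 3 := by omega
      rw [snapshot_eq (Xsm 0 (Nat.zero_le _)) (a := ⟨m, e0⟩) (i := i) (b := ⟨m + 2, e1⟩)
        (by simp [h3]) (by simp [h3]), X1 0 (Nat.zero_le _) ⟨m, e0⟩ (by simp),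
        X4 0 (Nat.zero_le _) i h3, X6 0 ⟨m + 2, e1⟩ rfl, hY0', hym _ rfl]
      have e2 : c0 * (A - 2 * A) = c0 * -A := by ring
      have e3 : c0 * (2 * A + B - 2 * A) = c0 * B := by ring
      rw [e2, e3, hq, hψ]
      ring
  · rw [X3 (Ns + 2) (by omega) _ rfl, X5 (Ns + 2) (by omega) _ rfl]
  · have e1 : ((m + 3 : ℕ) : ℝ) - 1 = m + 2 := by push_cast; ring
    rw [e1, div_lt_iff₀ (by linarith)]
    linarith
  · intro N hN
    rw [X6 N _ rfl]
    rcases Nat.lt_or_ge (Ns + 1) N with h3 | h3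
    · rw [X5 N h3 _ rfl, hq]
      linarith
    · rw [X4 N h3 _ rfl]
      linarith

theorem view_comm (u v : ℝ) : view u v = view v u := by
  funext z
  unfold view
  ring

/-- No deterministic protocol solves approximate covering of the segment under the asynchronous
scheduler with neighbour visibility. -/
theorem result : ¬ ∃ f : (ℝ → ℕ) → ℝ, Solves f := by
  rintro ⟨f, hf⟩
  have hpos : ∀ A B : ℝ, 0 < A → 0 < B → -A < f (view (1 * -A) (1 * B)) / 1 :=
    fun A B hA hB => no_jump hf one_ne_zero hA hB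
  have hneg : ∀ A B : ℝ, 0 < A → 0 < B → -A < f (view (-1 * -A) (-1 * B)) / -1 :=
    fun A B hA hB => no_jump hf (by norm_num) hA hB
  have hpos' : ∀ A B : ℝ, 0 < A → 0 < B → f (view (1 * -A) (1 * B)) / 1 < B := by
    intro A B hA hB
    have h := hneg B A hB hA
    rw [view_comm] at h
    have e1 : (-1 : ℝ) * A = 1 * -A := by ring
    have e2 : (-1 : ℝ) * -B = 1 * B := by ring
    rw [e1, e2, div_neg] at h
    linarith
  have hneg' : ∀ A B : ℝ, 0 < A → 0 < B → f (view (-1 * -A) (-1 * B)) / -1 < B := by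
    intro A B hA hB
    have h := hpos B A hB hA
    rw [view_comm] at h
    have e1 : (1 : ℝ) * A = -1 * -A := by ring
    have e2 : (1 : ℝ) * -B = -1 * B := by ring
    rw [e1, e2] at h
    rw [div_neg]
    linarith
  rcases lt_trichotomy (f (view (-(1 / 4)) (3 / 4))) 0 with h | h | h
  · refine main_case hf one_ne_zero hpos hpos' (A := 1 / 4) (B := 3 / 4) (by norm_num)
      (by norm_num) ?_
    rw [one_mul, one_mul, div_one]
    exact h
  · obtain ⟨y, hy⟩ : ∃ y : ℕ → ℝ, y = fun j => if j = 0 then 0 else if j = 1 then 1 / 4 else 1 :=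
      ⟨_, rfl⟩
    have y0 : y 0 = 0 := by rw [hy]; simp
    have y1 : y 1 = 1 / 4 := by rw [hy]; simp
    have y2 : y 2 = 1 := by rw [hy]; simp
    have hsm : StrictMono (fun i : Fin 3 => y i.1) := by
      refine strictMono_of fun a b hab => ?_
      have ha : a.1 = 0 ∨ a.1 = 1 := by omega
      rcases ha with h | h <;> simp only [← hab, h, y0, y1, y2] <;> norm_num
    have hmv : ∀ i : Fin 3, 0 < i.1 → i.1 + 1 < 3 →
        move f (fun _ : Fin 3 => 1) (fun i : Fin 3 => y i.1) i = 0 := by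
      intro i hi1 hi2
      have hi : i = 1 := Fin.ext (by simp; omega)
      subst hi
      unfold move
      rw [snapshot_eq hsm (a := 0) (i := 1) (b := 2) (by simp) (by simp)]
      simp only [show ((1 : Fin 3) : ℕ) = 1 from rfl, show ((2 : Fin 3) : ℕ) = 2 from rfl,
        show ((0 : Fin 3) : ℕ) = 0 from rfl, y0, y1, y2]
      have e1 : (1 : ℝ) * (0 - 1 / 4) = -(1 / 4) := by ring
      have e2 : (1 : ℝ) * (1 - 1 / 4) = 3 / 4 := by ring
      rw [e1, e2, h, zero_div]
    have hS : IsSched f (fun _ : Fin 3 => 1) 1 (fun _ i => y i.1) (fun _ _ => True)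
        (fun _ N => N) := by
      refine ⟨fun _ _ _ => rfl, fun _ _ _ => ?_, fun _ _ _ => le_rfl, fun _ _ _ _ _ h => h,
        fun _ _ _ _ h => absurd trivial h, fun i h1 h2 N _ => ?_⟩
      · simpa using Set.infinite_univ
      · exact ⟨1, by norm_num, le_rfl, by rw [hmv i h1 h2]; ring, Or.inl rfl⟩
    obtain ⟨t, -, hcov⟩ := use_solves hf (n := 3) (by norm_num) (fun _ => one_ne_zero) one_pos hS
      one_pos hsm (fun i hi => by simp [hi, y0])
      (fun i hi => by
        have : i.1 = 2 := by omega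
        simp [this, y2]) (ε := 1 / 8) (by norm_num)
    have h1 := (hcov 0 1 (by simp)).1
    unfold interp at h1
    simp only [show ((1 : Fin 3) : ℕ) = 1 from rfl, show ((0 : Fin 3) : ℕ) = 0 from rfl, y0, y1,
      sub_self, mul_zero, add_zero, sub_zero] at h1
    rw [abs_of_nonneg (by norm_num)] at h1
    norm_num at h1
  · refine main_case hf (c0 := -1) (by norm_num) hneg hneg' (A := 3 / 4) (B := 1 / 4)
      (by norm_num) (by norm_num) ?_
    rw [view_comm]
    have e1 : (-1 : ℝ) * (1 / 4) = -(1 / 4) := by ring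
    have e2 : (-1 : ℝ) * -(3 / 4) = 3 / 4 := by ring
    rw [e1, e2, div_neg, div_one]
    linarith

end Pool.Agent.Results.MP_362848_lc.AsyncImpossible
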